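import Mathlib
import Pool.Agent.H7R3.TF.TG

set_option autoImplicit false

open MeasureTheory Set Filter
open scoped ENNReal NNReal Topology ContDiff

namespace Pool.Agent.Results.MP_f7be6d_mp.SmallCharge

/-- Three dimensional Euclidean space. -/
abbrev E3 := EuclideanSpace ℝ (Fin 3)

/-- Wave functions of `N` spin-`1/2` electrons: functions of the positions `x ∈ (ℝ³)^N` and of the
spins `s ∈ {1,2}^N`. -/
abbrev Wave (N : ℕ) := (Fin N → E3) → (Fin N → Fin 2) → ℂ

/-- The trial functions: smooth and compactly supported in the positions, antisymmetric under the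
exchange of electrons (positions and spins), and normalised in `L²((ℝ³ × {1,2})^N)`. -/
structure Trial (N : ℕ) (ψ : Wave N) : Prop where
  smooth : ∀ s, ContDiff ℝ ∞ (fun x => ψ x s)
  compact : ∀ s, HasCompactSupport (fun x => ψ x s)
  antisymmetric : ∀ (τ : Equiv.Perm (Fin N)) (x : Fin N → E3) (s : Fin N → Fin 2),
    ψ (x ∘ τ) (s ∘ τ) = ((Equiv.Perm.sign τ : ℤ) : ℂ) * ψ x s
  normalised : ∑ s, ∫ x, ‖ψ x s‖ ^ 2 = 1

/-- The potential of the nuclei, `V(x) = ∑_j z_j |x - R_j|⁻¹`. -/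
noncomputable def nuclearPotential {k : ℕ} (z : Fin k → ℝ) (R : Fin k → E3) (x : E3) : ℝ :=
  ∑ j, z j / ‖x - R j‖

/-- The repulsion of the nuclei, `U = ∑_{i<j} z_i z_j |R_i - R_j|⁻¹`. -/
noncomputable def nuclearRepulsion {k : ℕ} (z : Fin k → ℝ) (R : Fin k → E3) : ℝ :=
  ∑ i, ∑ j ∈ Finset.Ioi i, z i * z j / ‖R i - R j‖

/-- The repulsion of the electrons, `∑_{i<j} |x_i - x_j|⁻¹`. -/
noncomputable def electronRepulsion {N : ℕ} (x : Fin N → E3) : ℝ :=
  ∑ i, ∑ j ∈ Finset.Ioi i, 1 / ‖x i - x j‖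

/-- `|∇ψ(x,s)|²`, the sum over the electrons `i` and the coordinates `a` of `|∂ψ/∂x_{i,a}|²`. -/
noncomputable def gradSq {N : ℕ} (ψ : Wave N) (x : Fin N → E3) (s : Fin N → Fin 2) : ℝ :=
  ∑ i : Fin N, ∑ a : Fin 3,
    ‖fderiv ℝ (fun y => ψ y s) x (Pi.single i (EuclideanSpace.single a (1 : ℝ)))‖ ^ 2

/-- The quadratic form `⟨ψ, H_N ψ⟩` of
`H_N = ∑_i (-Δ_i - V(x_i)) + ∑_{i<j} |x_i - x_j|⁻¹ + U`. -/
noncomputable def energyQ {N k : ℕ} (z : Fin k → ℝ) (R : Fin k → E3) (ψ : Wave N) : ℝ :=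
  ∑ s, ∫ x, (gradSq ψ x s +
    (-(∑ i, nuclearPotential z R (x i)) + electronRepulsion x + nuclearRepulsion z R) * ‖ψ x s‖ ^ 2)

/-- The quantum ground-state energy `E^Q(N, z, R) = inf spec H_N`, as the infimum of the quadratic
form over the normalised antisymmetric smooth compactly supported wave functions. -/
noncomputable def EQ (N : ℕ) {k : ℕ} (z : Fin k → ℝ) (R : Fin k → E3) : EReal :=
  ⨅ (ψ : Wave N) (_ : Trial N ψ), ((energyQ z R ψ : ℝ) : EReal)

/-- The densities allowed in Thomas-Fermi theory: `ρ ≥ 0`, `ρ ∈ L^{5/3} ∩ L¹`, `∫ ρ ≤ N`. -/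
structure Density (N : ℕ) (ρ : E3 → ℝ) : Prop where
  nonneg : ∀ x, 0 ≤ ρ x
  integrable : Integrable ρ
  integrable_rpow : Integrable (fun x => ρ x ^ (5 / 3 : ℝ))
  mass : ∫ x, ρ x ≤ (N : ℝ)

/-- The Thomas-Fermi functional
`γ ∫ ρ^{5/3} - ∫ V ρ + D(ρ,ρ) + U` with `γ = (3/5) (3π²)^{2/3}` and
`D(ρ,ρ) = (1/2) ∬ ρ(x) ρ(y) |x-y|⁻¹ dx dy`. -/
noncomputable def energyTF {k : ℕ} (z : Fin k → ℝ) (R : Fin k → E3) (ρ : E3 → ℝ) : ℝ :=
  3 / 5 * (3 * Real.pi ^ 2) ^ (2 / 3 : ℝ) * (∫ x, ρ x ^ (5 / 3 : ℝ))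
    - (∫ x, nuclearPotential z R x * ρ x)
    + 1 / 2 * (∫ p : E3 × E3, ρ p.1 * ρ p.2 / ‖p.1 - p.2‖)
    + nuclearRepulsion z R

/-- The Thomas-Fermi energy `E^TF(N, z, R)`. -/
noncomputable def ETF (N : ℕ) {k : ℕ} (z : Fin k → ℝ) (R : Fin k → E3) : EReal :=
  ⨅ (ρ : E3 → ℝ) (_ : Density N ρ), ((energyTF z R ρ : ℝ) : EReal)

open Pool.Agent.H7R3.TF in
/-- lower bound of the Thomas-Fermi energy: `E^TF ≥ U - (1 + H) Z^{7/3}`, `Z = T³`. -/
lemma ETF_ge {N k : ℕ} (z : Fin k → ℝ) (R : Fin k → E3) (hz : ∀ j, 0 < z j) {T : ℝ} (hT : 0 < T)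
    (hsum : ∑ j, z j = T ^ 3) :
    ((nuclearRepulsion z R - (1 + Hc) * T ^ 7 : ℝ) : EReal) ≤ ETF N z R := by
  refine le_iInf₂ fun ρ hρ => ?_
  rw [EReal.coe_le_coe_iff]
  have h := multi hρ.nonneg hρ.integrable hρ.integrable_rpow R hz hT hsum
  have hI : 0 ≤ ∫ x, ρ x ^ (5 / 3 : ℝ) := integral_nonneg fun x => Real.rpow_nonneg (hρ.nonneg x) _
  have hγ : 1 ≤ 3 / 5 * (3 * Real.pi ^ 2) ^ (2 / 3 : ℝ) := by
    have h1 : (3 : ℝ) ^ (3 : ℝ) ≤ 3 * Real.pi ^ 2 := by
      have := Real.pi_gt_three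
      norm_num
      nlinarith
    have h2 : ((3 : ℝ) ^ (3 : ℝ)) ^ (2 / 3 : ℝ) ≤ (3 * Real.pi ^ 2) ^ (2 / 3 : ℝ) :=
      Real.rpow_le_rpow (by positivity) h1 (by norm_num)
    rw [← Real.rpow_mul (by norm_num)] at h2
    norm_num at h2
    linarith
  have h3 : ∫ x, ρ x ^ (5 / 3 : ℝ) ≤ 3 / 5 * (3 * Real.pi ^ 2) ^ (2 / 3 : ℝ) * (∫ x, ρ x ^ (5 / 3 : ℝ)) :=
    le_mul_of_one_le_left hI hγ
  unfold energyTF nuclearPotential
  linarith

open Pool.Agent.H7R3.TF in
/-- the normalised Slater determinant with all spins up. -/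
noncomputable def slater {N : ℕ} (f : Fin N → E3 → ℝ) : Wave N := fun x s =>
  if s = (fun _ => 0) then (((√(N.factorial : ℝ))⁻¹ * Sdet f x : ℝ) : ℂ) else 0

open Pool.Agent.H7R3.TF in
lemma slater_trial {N : ℕ} {f : Fin N → E3 → ℝ} (hf : ∀ l, Orb (f l)) {D : ℝ} (hD : 0 < D)
    (hs : Sep f D) : Trial N (slater f) := by
  have hfac : (0 : ℝ) < (N.factorial : ℝ) := by exact_mod_cast Nat.factorial_pos N
  refine ⟨?_, ?_, ?_, ?_⟩
  · intro s
    unfold slater
    by_cases h : s = (fun _ => 0)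
    · simp only [if_pos h]
      exact Complex.ofRealCLM.contDiff.comp (contDiff_const.mul (contDiff_Sdet hf))
    · simp only [if_neg h]
      exact contDiff_const
  · intro s
    unfold slater
    by_cases h : s = (fun _ => 0)
    · simp only [if_pos h]
      have h1 : HasCompactSupport (fun x => (√(N.factorial : ℝ))⁻¹ * Sdet f x) :=
        (compact_Sdet hf).mul_left
      exact h1.comp_left (g := fun r : ℝ => (r : ℂ)) (by simp)
    · simp only [if_neg h]
      exact HasCompactSupport.zero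
  · intro τ x s
    unfold slater
    by_cases h : s = (fun _ => 0)
    · have h' : s ∘ τ = (fun _ => 0) := by rw [h]; rfl
      rw [if_pos h, if_pos h', Sdet_perm]
      push_cast
      ring
    · have h' : ¬ (s ∘ τ = (fun _ => 0)) := by
        intro hc
        apply h
        funext l
        have := congrFun hc (τ.symm l)
        simpa using this
      rw [if_neg h, if_neg h', mul_zero]
  · rw [Finset.sum_eq_single (fun _ => 0)]
    · have : ∀ x, ‖slater f x (fun _ => 0)‖ ^ 2 = (N.factorial : ℝ)⁻¹ * Sdet f x ^ 2 := by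
        intro x
        unfold slater
        rw [if_pos rfl, Complex.norm_real, Real.norm_eq_abs, sq_abs, mul_pow, inv_pow,
          Real.sq_sqrt hfac.le]
      simp_rw [this]
      rw [integral_const_mul, Sdet_norm hf hD hs, inv_mul_cancel₀ hfac.ne']
    · intro s _ hsne
      have : ∀ x, ‖slater f x s‖ ^ 2 = 0 := by
        intro x
        unfold slater
        rw [if_neg hsne]
        simp
      simp_rw [this]
      simp
    · intro h; exact absurd (Finset.mem_univ _) h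

open Pool.Agent.H7R3.TF in
lemma slater_energy {N k : ℕ} {f : Fin N → E3 → ℝ} (hf : ∀ l, Orb (f l)) {D : ℝ} (hD : 0 < D)
    (hs : Sep f D) (z : Fin k → ℝ) (R : Fin k → E3) :
    energyQ z R (slater f) ≤ (∑ j, kin (f j)) - (∑ j, ∑ i, z i * ∫ x, f j x ^ 2 / ‖x - R i‖)
      + (N : ℝ) ^ 2 / D + nuclearRepulsion z R := by
  have hfac : (0 : ℝ) < (N.factorial : ℝ) := by exact_mod_cast Nat.factorial_pos N
  unfold energyQ
  rw [Finset.sum_eq_single (fun _ => 0)]
  · have h1 : ∀ x, ‖slater f x (fun _ => 0)‖ ^ 2 = (N.factorial : ℝ)⁻¹ * Sdet f x ^ 2 := by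
      intro x
      unfold slater
      rw [if_pos rfl, Complex.norm_real, Real.norm_eq_abs, sq_abs, mul_pow, inv_pow,
        Real.sq_sqrt hfac.le]
    have h2 : ∀ x, gradSq (slater f) x (fun _ => 0) = (N.factorial : ℝ)⁻¹ *
        ∑ j : Fin N, ∑ a : Fin 3, (fderiv ℝ (Sdet f) x (Pi.single j (ev a))) ^ 2 := by
      intro x
      unfold gradSq
      rw [Finset.mul_sum]
      refine Finset.sum_congr rfl fun j _ => ?_
      rw [Finset.mul_sum]
      refine Finset.sum_congr rfl fun a _ => ?_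
      have hd : HasFDerivAt (Sdet f) (fderiv ℝ (Sdet f) x) x :=
        ((contDiff_Sdet hf).differentiable (by simp) x).hasFDerivAt
      have hd2 : HasFDerivAt (fun y => slater f y (fun _ => 0))
          (Complex.ofRealCLM.comp ((√(N.factorial : ℝ))⁻¹ • fderiv ℝ (Sdet f) x)) x := by
        have e : (fun y => slater f y (fun _ => 0))
            = fun y => Complex.ofRealCLM ((√(N.factorial : ℝ))⁻¹ * Sdet f y) := by
          funext y
          unfold slater
          rw [if_pos rfl]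
          rfl
        rw [e]
        exact Complex.ofRealCLM.hasFDerivAt.comp x (hd.const_mul _)
      rw [hd2.fderiv]
      simp only [ContinuousLinearMap.comp_apply, smul_apply, smul_eq_mul, Complex.ofRealCLM_apply,
        Complex.norm_real, Real.norm_eq_abs, sq_abs, mul_pow, inv_pow, Real.sq_sqrt hfac.le]
      rfl
    have h3 : ∀ x : Fin N → E3, (gradSq (slater f) x (fun _ => 0) +
        (-(∑ i, nuclearPotential z R (x i)) + electronRepulsion x + nuclearRepulsion z R)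
          * ‖slater f x (fun _ => 0)‖ ^ 2)
        = (N.factorial : ℝ)⁻¹ * ((∑ j : Fin N, ∑ a : Fin 3, (fderiv ℝ (Sdet f) x (Pi.single j (ev a))) ^ 2)
      + (-(∑ j : Fin N, ∑ i, z i / ‖x j - R i‖) + rep x + nuclearRepulsion z R) * Sdet f x ^ 2) := by
      intro x
      rw [h1, h2]
      unfold nuclearPotential electronRepulsion rep
      ring
    simp_rw [h3]
    rw [integral_const_mul]
    have h4 := mul_le_mul_of_nonneg_left (Sdet_energy hf hD hs z R (nuclearRepulsion z R))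
      (inv_nonneg.2 hfac.le)
    refine h4.trans (le_of_eq ?_)
    rw [← mul_assoc, inv_mul_cancel₀ hfac.ne', one_mul]
  · intro s _ hsne
    have h1 : ∀ x, slater f x s = 0 := by
      intro x
      unfold slater
      rw [if_neg hsne]
    have h2 : ∀ x, gradSq (slater f) x s = 0 := by
      intro x
      unfold gradSq
      have e : (fun y => slater f y s) = fun _ => 0 := funext h1
      rw [e]
      simp
    have h3 : ∀ x : Fin N → E3, (gradSq (slater f) x s +
        (-(∑ i, nuclearPotential z R (x i)) + electronRepulsion x + nuclearRepulsion z R)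
          * ‖slater f x s‖ ^ 2) = 0 := by
      intro x
      rw [h2, h1]
      simp
    simp_rw [h3]
    simp
  · intro h; exact absurd (Finset.mem_univ _) h

open Pool.Agent.H7R3.TF in
/-- **The inequality `E^Q ≥ E^TF` fails for every number of electrons, every number of nuclei and
every configuration of the nuclei, as soon as the total nuclear charge is below `c / k⁶`.** -/
theorem result : ∃ c : ℝ, 0 < c ∧ ∀ (N k : ℕ) (z : Fin k → ℝ) (R : Fin k → E3),
    1 ≤ N → 1 ≤ k → (∀ j, 0 < z j) → Function.Injective R → ∑ j, z j < c / (k : ℝ) ^ 6 →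
    EQ N z R < ETF N z R := by
  obtain ⟨A, hA, hex⟩ := exists_orbitals
  have hH : 0 < 1 + Hc := by have := Hc_nonneg; linarith
  set b : ℝ := 1 / (4 * A * (1 + Hc)) with hb
  have hbpos : 0 < b := by positivity
  refine ⟨b ^ 3, by positivity, ?_⟩
  intro N k z R hN hk hz _ hZ
  have : Nonempty (Fin k) := ⟨⟨0, hk⟩⟩
  have hkpos : (0 : ℝ) < k := by exact_mod_cast hk
  set Z : ℝ := ∑ j, z j with hZdef
  have hZpos : 0 < Z := Finset.sum_pos (fun j _ => hz j) Finset.univ_nonempty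
  -- the largest charge
  obtain ⟨m, _, hm⟩ := Finset.exists_max_image (Finset.univ : Finset (Fin k)) z Finset.univ_nonempty
  have hm' : Z ≤ k * z m := by
    calc Z ≤ ∑ _j : Fin k, z m := Finset.sum_le_sum fun j _ => hm j (Finset.mem_univ j)
      _ = k * z m := by simp
  set T : ℝ := Z ^ (1 / 3 : ℝ) with hT
  have hTpos : 0 < T := Real.rpow_pos_of_pos hZpos _
  have hT3 : Z = T ^ 3 := by
    rw [hT, ← Real.rpow_natCast, ← Real.rpow_mul hZpos.le]
    norm_num
  have hTb : T < b / (k : ℝ) ^ 2 := by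
    have h1 : T ^ 3 < (b / (k : ℝ) ^ 2) ^ 3 := by
      rw [← hT3, div_pow, ← pow_mul]
      exact hZ
    exact lt_of_pow_lt_pow_left₀ 3 (by positivity) h1
  -- the gap
  have hgap : (1 + Hc) * T ^ 7 < T ^ 6 / (4 * A * (k : ℝ) ^ 2) := by
    have h1 : (1 + Hc) * T ^ 7 < (1 + Hc) * (T ^ 6 * (b / (k : ℝ) ^ 2)) := by
      have : T ^ 7 = T ^ 6 * T := by ring
      rw [this]
      exact mul_lt_mul_of_pos_left (mul_lt_mul_of_pos_left hTb (by positivity)) hH
    refine h1.trans_le (le_of_eq ?_)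
    rw [hb]
    field_simp
  set ε : ℝ := (T ^ 6 / (4 * A * (k : ℝ) ^ 2) - (1 + Hc) * T ^ 7) / 2 with hε
  have hεpos : 0 < ε := by
    rw [hε]; linarith
  obtain ⟨f, D, hf, hD, hs, hE⟩ := hex N k z R m ε hN hz hεpos
  have hzm : T ^ 6 / (4 * A * (k : ℝ) ^ 2) ≤ z m ^ 2 / (4 * A) := by
    have h1 : T ^ 6 = Z ^ 2 := by rw [hT3]; ring
    rw [h1, div_le_div_iff₀ (by positivity) (by positivity)]
    have h2 : Z ^ 2 ≤ (k * z m) ^ 2 := pow_le_pow_left₀ hZpos.le hm' 2
    calc Z ^ 2 * (4 * A) ≤ (k * z m) ^ 2 * (4 * A) := mul_le_mul_of_nonneg_right h2 (by positivity)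
      _ = z m ^ 2 * (4 * A * (k : ℝ) ^ 2) := by ring
  have hup : EQ N z R ≤ ((energyQ z R (slater f) : ℝ) : EReal) :=
    iInf₂_le (slater f) (slater_trial hf hD hs)
  have hlow := ETF_ge (N := N) z R hz hTpos hT3
  refine lt_of_le_of_lt hup (lt_of_lt_of_le ?_ hlow)
  rw [EReal.coe_lt_coe_iff]
  have h5 := slater_energy hf hD hs z R
  linarith

end Pool.Agent.Results.MP_f7be6d_mp.SmallCharge
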